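import Pool.Agent.Helper84.TL.Defs

/-!
# Project TL, TL-I: the classes of Latin squares which agree outside a set of symbols
-/

set_option autoImplicit false

namespace Pool.Agent.Helper84.TL

open Finset Pool.Agent.Lead.TB

theorem h46_mem_ls {n : ℕ} {L : Fin n → Equiv.Perm (Fin n)} :
    L ∈ ls n ↔ ∀ i j, i ≠ j → ∀ r, L i r ≠ L j r := by
  unfold ls fac
  simp

theorem h46_inj {n : ℕ} {L : Fin n → Equiv.Perm (Fin n)} (hL : L ∈ ls n) (r : Fin n) :
    Function.Injective fun t => L t r := by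
  intro s t h
  by_contra hne
  exact h46_mem_ls.1 hL s t hne r h

theorem h46_inj' {n : ℕ} {L : Fin n → Equiv.Perm (Fin n)} (hL : L ∈ ls n) (c : Fin n) :
    Function.Injective fun t => (L t).symm c := by
  intro s t h
  by_contra hne
  refine h46_mem_ls.1 hL s t hne ((L s).symm c) ?_
  have h' : (L s).symm c = (L t).symm c := h
  rw [Equiv.apply_symm_apply, h', Equiv.apply_symm_apply]

theorem h46_mem_sg {n : ℕ} {L : Fin n → Equiv.Perm (Fin n)} {Y : Finset (Fin n)} {r c : Fin n} :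
    c ∈ sg L Y r ↔ ∃ t ∈ Y, L t r = c := by
  unfold sg
  exact mem_image

theorem h46_mem_cls {n : ℕ} {L L' : Fin n → Equiv.Perm (Fin n)} {Y : Finset (Fin n)} :
    L' ∈ cls L Y ↔ L' ∈ ls n ∧ ∀ s, s ∉ Y → L' s = L s := by
  unfold cls
  exact mem_filter

theorem sg_reg {n : ℕ} {L : Fin n → Equiv.Perm (Fin n)} (hL : L ∈ ls n) (Y : Finset (Fin n)) :
    Reg Y.card (sg L Y) := by
  refine ⟨fun r => card_image_of_injective Y (h46_inj hL r), fun c => ?_⟩
  rw [← card_image_of_injective Y (h46_inj' hL c)]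
  congr 1
  ext r
  simp only [mem_filter, mem_univ, true_and, h46_mem_sg, mem_image, Equiv.symm_apply_eq]
  exact exists_congr fun t => and_congr_right fun _ => eq_comm

theorem cls_self {n : ℕ} {L : Fin n → Equiv.Perm (Fin n)} (hL : L ∈ ls n) (Y : Finset (Fin n)) :
    L ∈ cls L Y := h46_mem_cls.2 ⟨hL, fun _ _ => rfl⟩

theorem cls_eq {n : ℕ} {L L' : Fin n → Equiv.Perm (Fin n)} {Y : Finset (Fin n)}
    (h : L' ∈ cls L Y) : cls L' Y = cls L Y := by
  ext M
  rw [h46_mem_cls, h46_mem_cls]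
  exact and_congr_right fun _ => forall_congr' fun s => forall_congr' fun hs => by
    rw [(h46_mem_cls.1 h).2 s hs]

theorem h46_sg_sub {n : ℕ} {L L' : Fin n → Equiv.Perm (Fin n)} {Y : Finset (Fin n)}
    (hL : L ∈ ls n) (hL' : L' ∈ ls n) (h : ∀ s, s ∉ Y → L' s = L s) (r : Fin n) :
    sg L' Y r ⊆ sg L Y r := by
  intro c hc
  obtain ⟨t, ht, htc⟩ := h46_mem_sg.1 hc
  obtain ⟨t', ht'⟩ := (Finite.injective_iff_surjective.1 (h46_inj hL r)) c
  refine h46_mem_sg.2 ⟨t', ?_, ht'⟩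
  by_contra hn
  have h1 : L' t' r = L' t r := by
    rw [h t' hn, htc]
    exact ht'
  exact hn (h46_inj hL' r h1 ▸ ht)

theorem cls_sg {n : ℕ} {L L' : Fin n → Equiv.Perm (Fin n)} {Y : Finset (Fin n)} (hL : L ∈ ls n)
    (h : L' ∈ cls L Y) : sg L' Y = sg L Y := by
  obtain ⟨h1, h2⟩ := h46_mem_cls.1 h
  funext r
  exact Subset.antisymm (h46_sg_sub hL h1 h2 r) (h46_sg_sub h1 hL (fun s hs => (h2 s hs).symm) r)

theorem cls_empty {n : ℕ} {L : Fin n → Equiv.Perm (Fin n)} (hL : L ∈ ls n) :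
    (cls L ∅).card = 1 := by
  refine card_eq_one.2 ⟨L, ?_⟩
  ext M
  rw [h46_mem_cls, mem_singleton]
  refine ⟨fun h => funext fun s => h.2 s (notMem_empty s), fun h => ?_⟩
  subst h
  exact ⟨hL, fun _ _ => rfl⟩

theorem h46_mem_fac {n : ℕ} {ι : Type} [Fintype ι] [DecidableEq ι] {G : Gr n}
    {σ : ι → Equiv.Perm (Fin n)} : σ ∈ fac ι G ↔
      (∀ i r, σ i r ∈ G r) ∧ ∀ i j, i ≠ j → ∀ r, σ i r ≠ σ j r := by
  unfold fac
  simp only [mem_filter, mem_univ, true_and]

theorem cls_card {n : ℕ} {L : Fin n → Equiv.Perm (Fin n)} (hL : L ∈ ls n) (Y : Finset (Fin n)) :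
    (cls L Y).card = (fac (Fin Y.card) (sg L Y)).card := by
  classical
  let e : Y ≃ Fin Y.card := Y.equivFin
  refine card_nbij' (fun L' i => L' (e.symm i))
    (fun σ s => if h : s ∈ Y then σ (e ⟨s, h⟩) else L s) ?_ ?_ ?_ ?_
  · intro L' hL'
    have hm := mem_coe.1 hL'
    refine mem_coe.2 (h46_mem_fac.2 ⟨fun i r => ?_, fun i j hij r => ?_⟩)
    · rw [← cls_sg hL hm]
      exact h46_mem_sg.2 ⟨e.symm i, (e.symm i).2, rfl⟩
    · refine h46_mem_ls.1 (h46_mem_cls.1 hm).1 _ _ (fun he => hij ?_) r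
      exact e.symm.injective (Subtype.ext he)
  · intro σ hσ
    obtain ⟨h1, h2⟩ := h46_mem_fac.1 (mem_coe.1 hσ)
    refine mem_coe.2 (h46_mem_cls.2 ⟨h46_mem_ls.2 fun i j hij r => ?_, fun s hs => ?_⟩)
    · have key : ∀ (a b : Fin n) (ha : a ∈ Y), b ∉ Y → σ (e ⟨a, ha⟩) r ≠ L b r := by
        intro a b ha hb
        obtain ⟨t, ht, htc⟩ := h46_mem_sg.1 (h1 (e ⟨a, ha⟩) r)
        rw [← htc]
        exact h46_mem_ls.1 hL t b (fun h => hb (h ▸ ht)) r
      by_cases hi : i ∈ Y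
      · by_cases hj : j ∈ Y
        · simp only [dif_pos hi, dif_pos hj]
          refine h2 _ _ (fun he => hij ?_) r
          exact congrArg Subtype.val (e.injective he)
        · simp only [dif_pos hi, dif_neg hj]
          exact key i j hi hj
      · by_cases hj : j ∈ Y
        · simp only [dif_neg hi, dif_pos hj]
          exact (key j i hj hi).symm
        · simp only [dif_neg hi, dif_neg hj]
          exact h46_mem_ls.1 hL i j hij r
    · simp only [dif_neg hs]
  · intro L' hL'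
    obtain ⟨-, h2⟩ := h46_mem_cls.1 (mem_coe.1 hL')
    funext s
    by_cases hs : s ∈ Y
    · simp only [dif_pos hs, Equiv.symm_apply_apply]
    · simp only [dif_neg hs]
      exact (h2 s hs).symm
  · intro σ hσ
    funext i
    simp only [dif_pos (e.symm i).2, Subtype.coe_eta, Equiv.apply_symm_apply]

end Pool.Agent.Helper84.TL
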